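import Mathlib
import Pool.Agent.Lead.VN
import Pool.Agent.Lead.Stamp

namespace Pool.Agent.Results.MP_16d611_an.SmallQ

open Polynomial

/-- The scaled q-numerical range, with the inner product `<x,y> = ∑ x_i conj(y_i)`. -/
def scaledRange {n : ℕ} (A : Matrix (Fin n) (Fin n) ℂ) (q : ℂ) : Set ℂ :=
  {z | ∃ x y : EuclideanSpace ℂ (Fin n), ‖x‖ = 1 ∧ ‖y‖ = 1 ∧
    ∑ i, x i * (starRingEnd ℂ) (y i) = q ∧
    z = (∑ i, (A.mulVec (fun j => x j)) i * (starRingEnd ℂ) (y i)) / q}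

/-- The operator norm induced by the Euclidean norm. -/
noncomputable def opNorm {n : ℕ} (B : Matrix (Fin n) (Fin n) ℂ) : ℝ :=
  ‖Matrix.toEuclideanCLM (n := Fin n) (𝕜 := ℂ) B‖

lemma op_version {E : Type*} [NormedAddCommGroup E] [InnerProductSpace ℂ E]
    [FiniteDimensional ℂ E] (hE : 2 ≤ Module.finrank ℂ E) (A : E →L[ℂ] E) (q : ℂ) (hq0 : q ≠ 0)
    (hq : ‖q‖ ^ 2 ≤ 1 / 2) (p : ℂ[X]) (M : ℝ)
    (hM : ∀ x y : E, ‖x‖ = 1 → ‖y‖ = 1 → inner ℂ y x = q → ‖p.eval (inner ℂ y (A x) / q)‖ ≤ M) :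
    ‖aeval A p‖ ≤ M := by
  haveI : Nontrivial E := Module.nontrivial_of_finrank_pos (R := ℂ) (by omega)
  obtain ⟨μ, x0, h1, h0, hB⟩ := Pool.Agent.Lead.Stamp.stampfli A
  set B := A - μ • (1 : E →L[ℂ] E) with hBdef
  set r := ‖B x0‖ with hr
  obtain ⟨u, hu1, hu0, huB⟩ : ∃ u : E, ‖u‖ = 1 ∧ inner ℂ x0 u = 0 ∧ B x0 = (r : ℂ) • u := by
    by_cases h : B x0 = 0
    · have hx0 : x0 ≠ 0 := by rintro rfl; simp at h1
      have hdim : 0 < Module.finrank ℂ (ℂ ∙ x0)ᗮ := by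
        have h2 := Submodule.finrank_add_finrank_orthogonal (ℂ ∙ x0)
        rw [finrank_span_singleton hx0] at h2
        omega
      obtain ⟨⟨w, hw⟩, hw0⟩ := Module.finrank_pos_iff_exists_ne_zero.1 hdim
      have hw1 : w ≠ 0 := fun h => hw0 (Subtype.ext h)
      have hn : ‖w‖ ≠ 0 := norm_ne_zero_iff.2 hw1
      refine ⟨((‖w‖⁻¹ : ℝ) : ℂ) • w, by simp [norm_smul, hn], ?_, by simp [hr, h]⟩
      rw [inner_smul_right, Submodule.mem_orthogonal_singleton_iff_inner_right.1 hw, mul_zero]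
    · have hn : r ≠ 0 := norm_ne_zero_iff.2 h
      refine ⟨((r⁻¹ : ℝ) : ℂ) • B x0, ?_, ?_, ?_⟩
      · rw [norm_smul, Complex.norm_real, norm_inv, Real.norm_eq_abs, abs_of_nonneg (norm_nonneg _),
          inv_mul_cancel₀ hn]
      · rw [inner_smul_right, h0, mul_zero]
      · rw [smul_smul, ← Complex.ofReal_mul, mul_inv_cancel₀ hn]; simp
  have hr0 : 0 ≤ r := norm_nonneg _
  have hqn : 0 < ‖q‖ := norm_pos_iff.2 hq0
  set s := Real.sqrt (1 - ‖q‖ ^ 2) with hs
  have hs2 : s ^ 2 = 1 - ‖q‖ ^ 2 := Real.sq_sqrt (by linarith)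
  have hs0 : 0 ≤ s := Real.sqrt_nonneg _
  have hqs : ‖q‖ ≤ s := by
    apply (pow_le_pow_iff_left₀ (norm_nonneg _) hs0 two_ne_zero).1
    linarith
  set l : ℂ := (s : ℂ) * r / q with hl
  have hln : ‖l‖ = s * r / ‖q‖ := by
    rw [hl, norm_div, norm_mul, Complex.norm_real, Complex.norm_real, Real.norm_eq_abs,
      Real.norm_eq_abs, abs_of_nonneg hs0, abs_of_nonneg hr0]
  have hlr : r ≤ ‖l‖ := by
    rw [hln, le_div_iff₀ hqn]; nlinarith
  have hT : ‖l⁻¹ • B‖ ≤ 1 := by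
    rw [norm_smul, norm_inv]
    by_cases h : ‖l‖ = 0
    · rw [h]; simp
    · rw [inv_mul_le_iff₀ (lt_of_le_of_ne (norm_nonneg _) (Ne.symm h))]
      linarith
  have hlT : l • (l⁻¹ • B) = B := by
    by_cases h : l = 0
    · have : ‖B‖ ≤ 0 := by rw [h, norm_zero] at hlr; linarith
      rw [norm_le_zero_iff.1 this]; simp
    · rw [smul_smul, mul_inv_cancel₀ h, one_smul]
  have hvn := Pool.Agent.Lead.VN.von_neumann (l⁻¹ • B) hT (p.comp (C μ + C l * X)) M (by
    intro z hz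
    have huu : inner ℂ u x0 = 0 := by rw [← inner_conj_symm, hu0, map_zero]
    have hy := hM x0 ((starRingEnd ℂ) q • x0 + ((s : ℂ) * (starRingEnd ℂ) z) • u) h1 (by
      apply (pow_left_inj₀ (norm_nonneg _) zero_le_one two_ne_zero).1
      rw [@norm_add_sq ℂ, inner_smul_left, inner_smul_right, hu0, norm_smul, norm_smul, h1, hu1,
        norm_mul, Complex.norm_conj, Complex.norm_conj, hz, Complex.norm_real, Real.norm_eq_abs,
        abs_of_nonneg hs0]
      simp only [mul_zero, map_zero, mul_one]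
      linarith) (by
      rw [inner_add_left, inner_smul_left, inner_smul_left, huu, inner_self_eq_norm_sq_to_K, h1]
      simp)
    have hA : A x0 = μ • x0 + (r : ℂ) • u := by
      rw [← huB, hBdef]; simp
    have he : inner ℂ ((starRingEnd ℂ) q • x0 + ((s : ℂ) * (starRingEnd ℂ) z) • u) (A x0) / q
        = μ + l * z := by
      rw [hA, hl]
      simp only [inner_add_left, inner_add_right, inner_smul_left, inner_smul_right, huu, hu0,
        inner_self_eq_norm_sq_to_K, h1, hu1, map_mul, Complex.conj_conj, Complex.conj_ofReal]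
      simp only [Complex.coe_algebraMap, Complex.ofReal_one]
      field_simp
      ring
    rw [he] at hy
    simpa [eval_comp] using hy)
  rw [aeval_comp] at hvn
  have hE2 : aeval (l⁻¹ • B) (C μ + C l * X : ℂ[X]) = A := by
    rw [map_add, map_mul, aeval_C, aeval_C, aeval_X, ← Algebra.smul_def, hlT,
      Algebra.algebraMap_eq_smul_one, hBdef]
    abel
  rwa [hE2] at hvn

theorem result (n : ℕ) (hn : 2 ≤ n) (A : Matrix (Fin n) (Fin n) ℂ) (q : ℂ) (hq0 : q ≠ 0)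
    (hq : ‖q‖ ^ 2 ≤ 1 / 2) (p : ℂ[X]) :
    opNorm (aeval A p) ≤ sSup ((fun z => ‖p.eval z‖) '' scaledRange A q) := by
  set T := Matrix.toEuclideanCLM (n := Fin n) (𝕜 := ℂ) A with hT
  have hin : ∀ x y : EuclideanSpace ℂ (Fin n),
      inner ℂ y x = ∑ i, x i * (starRingEnd ℂ) (y i) := by
    intro x y
    simp [PiLp.inner_apply]
  have hin2 : ∀ x y : EuclideanSpace ℂ (Fin n),
      inner ℂ y (T x) = ∑ i, (A.mulVec (fun j => x j)) i * (starRingEnd ℂ) (y i) := by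
    intro x y
    rw [hin]; rfl
  have hbdd : BddAbove ((fun z => ‖p.eval z‖) '' scaledRange A q) := by
    have hsub : scaledRange A q ⊆ Metric.closedBall 0 (‖T‖ / ‖q‖) := by
      rintro z ⟨x, y, hx, hy, -, rfl⟩
      rw [← hin2, mem_closedBall_zero_iff, norm_div]
      gcongr
      calc _ ≤ ‖y‖ * ‖T x‖ := norm_inner_le_norm _ _
        _ ≤ ‖y‖ * (‖T‖ * ‖x‖) := by gcongr; exact T.le_opNorm x
        _ = _ := by rw [hx, hy]; ring
    exact (((isCompact_closedBall _ _).image_of_continuousOn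
      (p.continuous.norm.continuousOn)).bddAbove).mono (Set.image_mono hsub)
  have h := op_version (E := EuclideanSpace ℂ (Fin n)) (by simpa using hn) T q hq0 hq p
    (sSup ((fun z => ‖p.eval z‖) '' scaledRange A q)) (fun x y hx hy hxy =>
      le_csSup hbdd ⟨_, ⟨x, y, hx, hy, by rw [← hin, hxy], by rw [hin2]⟩, rfl⟩)
  unfold opNorm
  have he : Matrix.toEuclideanCLM (n := Fin n) (𝕜 := ℂ) (aeval A p) = aeval T p := by
    rw [hT]
    exact (aeval_algHom_apply (Matrix.toEuclideanCLM (n := Fin n) (𝕜 := ℂ)) A p).symm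
  rw [he]
  exact h

end Pool.Agent.Results.MP_16d611_an.SmallQ
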